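import Mathlib

/-!
Existence of a process with given transition probabilities that depend on the whole history, on a
countable type, and an upper bound for the probability that it follows a given path.
-/

set_option autoImplicit false

open MeasureTheory Finset ProbabilityTheory Preorder
open scoped ENNReal

namespace Pool.Agent.R766.Proc

/-- Extension of a finite piece of path to a sequence. -/
def extend {S : Type*} (n : ℕ) (z : (i : Finset.Iic n) → S) : ℕ → S :=
  fun s => if h : s ≤ n then z ⟨s, Finset.mem_Iic.mpr h⟩ else z ⟨n, Finset.mem_Iic.mpr le_rfl⟩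

theorem exists_process {S : Type*} [Countable S] (p : ℕ → (ℕ → S) → S → ℝ≥0∞)
    (hp : ∀ n x, ∑' y, p n x y = 1)
    (hloc : ∀ n x x', (∀ i ≤ n, x i = x' i) → p n x = p n x') (o : S) :
    ∃ (_ : MeasurableSpace (ℕ → S)) (P : Measure (ℕ → S)),
      IsProbabilityMeasure P ∧ (∀ n y, MeasurableSet {ω : ℕ → S | ω n = y}) ∧
      P {ω | ω 0 = o} = 1 ∧
      ∀ (t : ℕ) (x : ℕ → S) (y : S), P {ω | (∀ i ≤ t, ω i = x i) ∧ ω (t + 1) = y} =
        P {ω | ∀ i ≤ t, ω i = x i} * p t x y := by
  classical
  letI mV : MeasurableSpace S := ⊤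
  haveI : DiscreteMeasurableSpace S := ⟨fun _ => trivial⟩
  let κf : (n : ℕ) → ((i : Finset.Iic n) → S) → Measure S := fun n z =>
    Measure.sum (fun y => p n (extend n z) y • Measure.dirac y)
  have κf_single : ∀ n z y, κf n z {y} = p n (extend n z) y := by
    intro n z y
    simp only [κf]
    rw [Measure.sum_apply _ (MeasurableSet.singleton y)]
    rw [tsum_eq_single y]
    · simp
    · intro b hb
      simp [hb]
  have κf_prob : ∀ n z, IsProbabilityMeasure (κf n z) := by
    intro n z
    refine ⟨?_⟩
    simp only [κf]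
    rw [Measure.sum_apply _ MeasurableSet.univ]
    simp only [Measure.smul_apply, measure_univ, smul_eq_mul, mul_one]
    exact hp _ _
  let κ : (n : ℕ) → Kernel ((i : Finset.Iic n) → S) S := fun n =>
    { toFun := κf n
      measurable' := measurable_of_countable _ }
  haveI : ∀ n, IsMarkovKernel (κ n) := fun n => ⟨fun z => κf_prob n z⟩
  let P : Measure ((n : ℕ) → S) := Kernel.trajMeasure (X := fun _ => S) (Measure.dirac o) κ
  haveI : IsProbabilityMeasure P := by
    show IsProbabilityMeasure (Kernel.trajMeasure (X := fun _ => S) (Measure.dirac o) κ)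
    infer_instance
  refine ⟨inferInstance, P, inferInstance, ?_, ?_, ?_⟩
  · intro t v
    exact (measurable_pi_apply (X := fun _ : ℕ => S) t) (MeasurableSet.singleton v)
  · have hmap : P.map (fun ω => ω 0) = Measure.dirac o := by
      have h1 : P.map (frestrictLe 0) = (Measure.dirac o).map (MeasurableEquiv.piUnique
          ((fun i : Finset.Iic 0 ↦ S))).symm := by
        show (Kernel.trajMeasure (X := fun _ => S) (Measure.dirac o) κ).map (frestrictLe 0) = _
        rw [Kernel.trajMeasure, Measure.map_comp _ _ (by fun_prop), Kernel.traj_map_frestrictLe,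
          Kernel.partialTraj_self, Measure.id_comp]
      have h2 : (fun ω : ℕ → S => ω 0) = (fun z : (i : Finset.Iic 0) → S =>
          z ⟨0, Finset.mem_Iic.mpr le_rfl⟩) ∘ (frestrictLe 0) := rfl
      rw [h2, ← Measure.map_map (by fun_prop) (by fun_prop), h1, Measure.map_map (by fun_prop)
        (by fun_prop)]
      convert Measure.map_id using 2
      funext v
      rfl
    have : {ω : ℕ → S | ω 0 = o} = (fun ω => ω 0) ⁻¹' {o} := by ext; simp
    rw [this, ← Measure.map_apply (by fun_prop) (MeasurableSet.singleton o), hmap]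
    simp
  · intro t x y
    have hk := Kernel.map_frestrictLe_trajMeasure_compProd_eq_map_trajMeasure
      (X := fun _ => S) (μ₀ := Measure.dirac o) (κ := κ) (a := t)
    have e1 : {ω : ℕ → S | (∀ s ≤ t, ω s = x s) ∧ ω (t + 1) = y} =
        (fun ω : ℕ → S => (frestrictLe (π := fun _ => S) t ω, ω (t + 1))) ⁻¹'
          ({frestrictLe (π := fun _ => S) t x} ×ˢ {y}) := by
      ext ω
      simp only [Set.mem_ofPred_eq, Set.mem_preimage, Set.mem_prod, Set.mem_singleton_iff]
      constructor
      · rintro ⟨h1, h2⟩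
        refine ⟨?_, h2⟩
        funext i
        exact h1 i (Finset.mem_Iic.mp i.2)
      · rintro ⟨h1, h2⟩
        refine ⟨fun s hs => ?_, h2⟩
        exact congrFun h1 ⟨s, Finset.mem_Iic.mpr hs⟩
    have e2 : {ω : ℕ → S | ∀ s ≤ t, ω s = x s} =
        (frestrictLe (π := fun _ => S) t) ⁻¹' {frestrictLe (π := fun _ => S) t x} := by
      ext ω
      simp only [Set.mem_ofPred_eq, Set.mem_preimage, Set.mem_singleton_iff]
      constructor
      · intro h1
        funext i
        exact h1 i (Finset.mem_Iic.mp i.2)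
      · intro h1 s hs
        exact congrFun h1 ⟨s, Finset.mem_Iic.mpr hs⟩
    have hm1 : MeasurableSet ({frestrictLe (π := fun _ => S) t x} :
      Set ((i : Finset.Iic t) → S)) := MeasurableSet.singleton _
    rw [e1, ← Measure.map_apply (by fun_prop) (hm1.prod (MeasurableSet.singleton y))]
    show (Measure.map _ (Kernel.trajMeasure (X := fun _ => S) (Measure.dirac o) κ)) _ = _
    rw [← hk, Measure.compProd_apply_prod hm1 (MeasurableSet.singleton y)]
    rw [e2, ← Measure.map_apply (by fun_prop) hm1]
    rw [lintegral_singleton]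
    have : (κ t) (frestrictLe (π := fun _ => S) t x) {y} = p t x y := by
      show κf t _ {y} = _
      rw [κf_single]
      refine congrFun (hloc _ _ _ fun s hs => ?_) y
      simp [extend, hs]
    rw [this, mul_comm]

/-- The probability of a finite path is at most the product of the transition probabilities. -/
theorem path_le {S Ω : Type*} {_ : MeasurableSpace Ω} (P : Measure Ω) [IsProbabilityMeasure P]
    (X : ℕ → Ω → S) (p : ℕ → (ℕ → S) → S → ℝ≥0∞)
    (h : ∀ (t : ℕ) (x : ℕ → S) (y : S), P {ω | (∀ i ≤ t, X i ω = x i) ∧ X (t + 1) ω = y} =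
        P {ω | ∀ i ≤ t, X i ω = x i} * p t x y) (x : ℕ → S) (n : ℕ) :
    P {ω | ∀ i ≤ n, X i ω = x i} ≤ ∏ i ∈ range n, p i x (x (i + 1)) := by
  induction n with
  | zero => simpa using prob_le_one
  | succ n ih =>
    have e : {ω | ∀ i ≤ n + 1, X i ω = x i} =
        {ω | (∀ i ≤ n, X i ω = x i) ∧ X (n + 1) ω = x (n + 1)} := by
      ext ω
      simp only [Set.mem_setOf_eq]
      constructor
      · intro h
        exact ⟨fun i hi => h i (by omega), h _ le_rfl⟩
      · rintro ⟨h1, h2⟩ i hi
        rcases Nat.lt_or_ge i (n + 1) with h3 | h3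
        · exact h1 i (by omega)
        · rw [show i = n + 1 by omega]; exact h2
    rw [e, h, prod_range_succ]
    gcongr

/-- If the sum of the probabilities of leaving the path `x` diverges, then almost surely the
process does not follow `x`. -/
theorem path_null {S Ω : Type*} {_ : MeasurableSpace Ω} (P : Measure Ω) [IsProbabilityMeasure P]
    (X : ℕ → Ω → S) (p : ℕ → (ℕ → S) → S → ℝ≥0∞)
    (h : ∀ (t : ℕ) (x : ℕ → S) (y : S), P {ω | (∀ i ≤ t, X i ω = x i) ∧ X (t + 1) ω = y} =
        P {ω | ∀ i ≤ t, X i ω = x i} * p t x y) (x : ℕ → S) (q : ℕ → ℝ) (hq0 : ∀ n, 0 ≤ q n)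
    (hq : ∀ n, p n x (x (n + 1)) ≤ ENNReal.ofReal (1 - q n)) (hs : ¬ Summable q) :
    P {ω | ∀ n, X n ω = x n} = 0 := by
  have h1 : ∀ n, P {ω | ∀ n, X n ω = x n} ≤
      ENNReal.ofReal (Real.exp (-∑ i ∈ range n, q i)) := by
    intro n
    calc P {ω | ∀ n, X n ω = x n} ≤ P {ω | ∀ i ≤ n, X i ω = x i} :=
          measure_mono fun ω hω i _ => hω i
      _ ≤ ∏ i ∈ range n, p i x (x (i + 1)) := path_le P X p h x n
      _ ≤ ∏ i ∈ range n, ENNReal.ofReal (Real.exp (-q i)) := by
          refine prod_le_prod' fun i _ => (hq i).trans (ENNReal.ofReal_le_ofReal ?_)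
          have := Real.add_one_le_exp (-q i)
          linarith
      _ = ENNReal.ofReal (Real.exp (-∑ i ∈ range n, q i)) := by
          rw [← ENNReal.ofReal_prod_of_nonneg fun i _ => (Real.exp_pos _).le, ← Real.exp_sum,
            sum_neg_distrib]
  have h2 : Filter.Tendsto (fun n => ∑ i ∈ range n, q i) Filter.atTop Filter.atTop :=
    (not_summable_iff_tendsto_nat_atTop_of_nonneg hq0).1 hs
  have h3 : Filter.Tendsto (fun n => ENNReal.ofReal (Real.exp (-∑ i ∈ range n, q i)))
      Filter.atTop (nhds 0) := by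
    have := Real.tendsto_exp_neg_atTop_nhds_zero.comp h2
    simpa using ENNReal.tendsto_ofReal this
  exact le_antisymm (ge_of_tendsto' h3 h1) zero_le

end Pool.Agent.R766.Proc
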