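import Pool.Agent.R497.TM.Defs
import Pool.Agent.R497.TD.Main

/-!
# TM-MTOP: the factor of highest degree decouples, for maps
-/

set_option autoImplicit false

namespace Pool.Agent.R766.TM

open MeasureTheory Filter Finset
open Pool.Agent.Y957.MC (IsFlow flowInv smo)
open Pool.Agent.R497.Er (zp sus zp_mp)
open Pool.Agent.R497.TM
open Pool.Agent.R497.TD (S_TOP S_FG S_PROD S_WG dec)

universe u

theorem condExp_bdd {X : Type u} {m m0 : MeasurableSpace X} {μ : Measure X} [IsProbabilityMeasure μ]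
    (hm : m ≤ m0) {g : X → ℂ} (hg : AEStronglyMeasurable g μ) {C : ℝ}
    (hC : ∀ᵐ x ∂μ, ‖g x‖ ≤ C) : ∀ᵐ x ∂μ, ‖(μ[g | m]) x‖ ≤ C := by
  have hi : Integrable g μ := Integrable.of_bound hg C hC
  have h1 := norm_condExp_le (μ := μ) (m := m) g
  have h2 : μ[(fun x => ‖g x‖) | m] ≤ᵐ[μ] μ[(fun _ => C) | m] :=
    condExp_mono hi.norm (integrable_const C) hC
  rw [condExp_const hm] at h2
  filter_upwards [h1, h2] with x a b using a.trans b

theorem t_MTOP (hS : S_SFL.{u}) (hC : S_SCE.{u}) (hT : S_TR.{u})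
    (h1 : S_TOP.{u}) (h2 : S_FG.{u}) (h3 : S_PROD.{u}) (h4 : S_WG.{u}) : S_MTOP.{u} := by
  classical
  intro X _ μ _ r T f P S g Q W hTm hf hfb hP hSm hg hgb hQ hPQ hW hWb
  have hfl : ∀ j, IsFlow (nu μ) (sus (T j)) := fun j => (hS X μ (T j) (hTm j)).2
  have hflS : IsFlow (nu μ) (sus S) := (hS X μ S hSm).2
  haveI : IsProbabilityMeasure (nu μ) := (hS X μ S hSm).1
  have hsnd : ∀ {p : X → Prop}, (∀ᵐ x ∂μ, p x) → ∀ᵐ q ∂(nu μ), p q.2 := by
    intro p hp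
    unfold nu
    exact Measure.quasiMeasurePreserving_snd.ae hp
  have hsm : ∀ {h : X → ℂ}, AEStronglyMeasurable h μ →
      AEStronglyMeasurable (fun q : ℝ × X => h q.2) (nu μ) := by
    intro h hh
    unfold nu
    exact hh.comp_snd
  obtain ⟨CW, hCW⟩ := hWb
  obtain ⟨Cg, hCg⟩ := hgb
  choose Cf hCf using hfb
  have key := dec h1 h2 h3 h4 (μ := nu μ) (τ := fun j => sus (T j)) (f := fun j q => f j q.2) (P := P)
    hfl (fun j => hsm (hf j)) (fun j => ⟨Cf j, hsnd (hCf j)⟩) hP (σ := sus S) (Q := Q)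
    (g := fun q => g q.2) (W := fun n q => W n q.2) hflS (hsm hg) ⟨Cg, hsnd hCg⟩ hQ hPQ
    (fun n => hsm (hW n)) ⟨CW, fun n => hsnd (hCW n)⟩
  have hce := hC X μ S g hSm hg ⟨Cg, hCg⟩
  -- the function of heights
  set E : X → ℂ := μ[g | MeasurableSpace.invariants S] with hE
  set Φ : ℕ → X → (Fin (r + 1) → ℤ) → ℂ := fun n x k =>
    (W n x * ∏ j, f j (zp (T j) (k j.succ) x)) * (g (zp S (k 0) x) - E x) with hΦ
  have b1 : ∀ᵐ x ∂μ, ∀ n, ‖W n x‖ ≤ CW := ae_all_iff.2 hCW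
  have b2 : ∀ᵐ x ∂μ, ∀ j, ∀ l : ℤ, ‖f j (zp (T j) l x)‖ ≤ Cf j :=
    ae_all_iff.2 fun j => ae_all_iff.2 fun l =>
      (zp_mp (T j) (hTm j) l).quasiMeasurePreserving.ae (hCf j)
  have b3 : ∀ᵐ x ∂μ, ∀ l : ℤ, ‖g (zp S l x)‖ ≤ Cg :=
    ae_all_iff.2 fun l => (zp_mp S hSm l).quasiMeasurePreserving.ae hCg
  have b4 : ∀ᵐ x ∂μ, ‖E x‖ ≤ Cg := condExp_bdd (MeasurableSpace.invariants_le S) hg hCg
  have hb : ∀ᵐ x ∂μ, ∀ n k, ‖Φ n x k‖ ≤ (CW * ∏ j, Cf j) * (Cg + Cg) := by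
    filter_upwards [b1, b2, b3, b4] with x a1 a2 a3 a4 n k
    rw [hΦ]
    simp only [norm_mul, norm_prod]
    have e1 : 0 ≤ CW := (norm_nonneg _).trans (a1 0)
    have e2 : ∏ j, ‖f j (zp (T j) (k j.succ) x)‖ ≤ ∏ j, Cf j :=
      Finset.prod_le_prod (fun _ _ => norm_nonneg _) fun j _ => a2 j _
    have e3 : 0 ≤ ∏ j, ‖f j (zp (T j) (k j.succ) x)‖ := Finset.prod_nonneg fun _ _ => norm_nonneg _
    have e4 : ‖g (zp S (k 0) x) - E x‖ ≤ Cg + Cg := (norm_sub_le _ _).trans (add_le_add (a3 _) a4)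
    refine mul_le_mul (mul_le_mul (a1 n) e2 e3 e1) e4 (norm_nonneg _) ?_
    exact mul_nonneg e1 (e3.trans e2)
  have hdeg : ∀ j : Fin (r + 1), 0 < ((Fin.cons Q P : Fin (r + 1) → Polynomial ℝ) j).natDegree := by
    intro j
    refine Fin.cases ?_ (fun i => ?_) j
    · exact hQ
    · exact hP i
  have fin := hT X μ (r + 1) (Fin.cons Q P) Φ _ hdeg hb ?_
  · filter_upwards [fin] with a ha
    filter_upwards [ha] with x hx
    exact hx
  · filter_upwards [key] with a ha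
    filter_upwards [ha, hce] with p hp hcp
    refine hp.congr fun N => ?_
    congr 1
    refine Finset.sum_congr rfl fun n _ => ?_
    rw [hcp]
    rfl

end Pool.Agent.R766.TM
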